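import Mathlib
import Pool.Agent.helper94.RB.Base

set_option autoImplicit false

/-!
# The near structure, for `n = 2 mod 4`
-/

namespace Pool.Agent.helper64.RF

open Pool.Agent.helper94.Rainbow Pool.Agent.helper94.RainbowTwice Pool.Agent.helper94.RB

variable {V C : Type} {c : Sym2 V → C} {n t m : ℕ} {v : ℤ → V} {β : ℤ → ℤ} {s x : ℤ}

/-- `n = 2 mod 4`, `m = 2n - 4 + t` with `3 ≤ t ≤ n - 2`, `t = 2 mod 4`; there is a rainbow
`m`-cycle `v`, but no rainbow `n`-cycle and no rainbow `L`-cycle for `L = 2 mod 4` with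
`2n - 3 ≤ L < m`. (This file is adapted from the corresponding file for odd `n`,
`Pool.Agent.helper94.RB.Near`.) -/
structure Base (c : Sym2 V → C) (n t m : ℕ) (v : ℤ → V) : Prop where
  F : Frame c m v
  hm : m + 4 = 2 * n + t
  ht : 3 ≤ t
  htn : t + 2 ≤ n
  hn : n % 4 = 2
  hte : t % 4 = 2
  no : ¬ HasRainbowCycle c n
  noL : ∀ L, L % 4 = 2 → 2 * n ≤ L + 3 → L < m → ¬ HasRainbowCycle c L

/-- The near structure: the chords `C_x = (x, x + n - 1)` and `H_x = (x - t + 1, x)` both have
colour `β x`, where `β x ≥ x` is the last element of the block of `x` in a partition of `ℤ`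
(periodic mod `m`) into intervals. -/
structure Near (c : Sym2 V → C) (n t m : ℕ) (v : ℤ → V) (β : ℤ → ℤ) : Prop
    extends Base c n t m v where
  le : ∀ x, x ≤ β x
  blk : ∀ x y, x ≤ y → y ≤ β x → β y = β x
  per : ∀ x, β (x + m) = β x + m
  colC : ∀ x, Col c v x (x + n - 1) (β x)
  colH : ∀ x, Col c v (x - t + 1) x (β x)

theorem Frame.shift (F : Frame c m v) (e : ℤ) : Frame c m (fun x => v (x + e)) := by
  refine ⟨?_, ?_, ?_⟩
  · intro x
    show v (x + m + e) = v (x + e)
    rw [show x + m + e = x + e + m by ring, F.per]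
  · intro x y h
    have := F.inj _ _ h
    rwa [show x + e - (y + e) = x - y by ring] at this
  · intro x y h
    have h' : c s(v (x + e), v (x + e + 1)) = c s(v (y + e), v (y + e + 1)) := by
      have e1 : ∀ z : ℤ, z + e + 1 = z + 1 + e := fun z => by ring
      rw [e1, e1]; exact h
    have := F.cinj _ _ h'
    rwa [show x + e - (y + e) = x - y by ring] at this

theorem Base.shift (N : Base c n t m v) (e : ℤ) : Base c n t m (fun x => v (x + e)) :=
  ⟨Frame.shift N.F e, N.hm, N.ht, N.htn, N.hn, N.hte, N.no, N.noL⟩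

theorem Col.shiftFrame {x y g : ℤ} (e : ℤ) (h : Col c v (x + e) (y + e) (g + e)) :
    Col c (fun x => v (x + e)) x y g := by
  unfold Col at *
  show c s(v (x + e), v (y + e)) = c s(v (g + e), v (g + 1 + e))
  rw [show g + 1 + e = g + e + 1 by ring]
  exact h

/-- translating a near structure -/
theorem Near.shift (N : Near c n t m v β) (e : ℤ) :
    Near c n t m (fun x => v (x + e)) (fun x => β (x + e) - e) := by
  refine ⟨N.toBase.shift e, ?_, ?_, ?_, ?_, ?_⟩
  · intro x
    have := N.le (x + e)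
    show x ≤ β (x + e) - e
    omega
  · intro x y h1 h2
    have h2' : y ≤ β (x + e) - e := h2
    show β (y + e) - e = β (x + e) - e
    rw [N.blk (x + e) (y + e) (by omega) (by omega)]
  · intro x
    show β (x + m + e) - e = β (x + e) - e + m
    rw [show x + m + e = x + e + m by ring, N.per]
    ring
  · intro x
    refine Col.shiftFrame e ?_
    have := N.colC (x + e)
    rw [show x + n - 1 + e = x + e + n - 1 by ring, show β (x + e) - e + e = β (x + e) by ring]
    exact this
  · intro x
    refine Col.shiftFrame e ?_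
    have := N.colH (x + e)
    rw [show x - t + 1 + e = x + e - t + 1 by ring, show β (x + e) - e + e = β (x + e) by ring]
    exact this

theorem Near.idem (N : Near c n t m v β) (x : ℤ) : β (β x) = β x := N.blk x (β x) (N.le x) le_rfl

theorem Near.per' (N : Near c n t m v β) (x : ℤ) : β (x - m) = β x - m := by
  have := N.per (x - m)
  rw [show x - (m : ℤ) + m = x by ring] at this
  omega

/-- either the block of `x` ends before `y` or `x` and `y` are in the same block -/
theorem Near.lt_or (N : Near c n t m v β) {x y : ℤ} (h : x ≤ y) : β x < y ∨ β x = β y := by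
  rcases lt_or_ge (β x) y with h1 | h1
  · exact Or.inl h1
  · exact Or.inr (N.blk x y h h1).symm

theorem Near.mono (N : Near c n t m v β) {x y : ℤ} (h : x ≤ y) : β x ≤ β y := by
  have := N.le y
  rcases N.lt_or h with h1 | h1 <;> omega

/-- the first element of the block of `x` -/
theorem Near.exists_start (N : Near c n t m v β) {S : ℤ} (hS : ∀ x, β x ≤ x + S) (x : ℤ) :
    ∃ δ, δ ≤ x ∧ β δ = β x ∧ β (δ - 1) = δ - 1 ∧ β x ≤ δ + S := by
  have hb : ∃ b : ℤ, ∀ z, z ≤ x ∧ β z = β x → b ≤ z := by
    refine ⟨β x - S, ?_⟩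
    rintro z ⟨h1, h2⟩
    have := hS z
    omega
  obtain ⟨δ, ⟨h1, h2⟩, h3⟩ := Int.exists_least_of_bdd (P := fun z => z ≤ x ∧ β z = β x) hb
    ⟨x, le_rfl, rfl⟩
  refine ⟨δ, h1, h2, ?_, by have := hS δ; omega⟩
  have h4 := N.le (δ - 1)
  rcases N.lt_or (show δ - 1 ≤ δ by omega) with h5 | h5
  · omega
  · have := h3 (δ - 1) ⟨by omega, by rw [h5, h2]⟩
    omega

/-- absent lengths as integers -/
theorem Base.absent (N : Base c n t m v) {L : ℤ}
    (h : L = n ∨ (2 * n - 3 ≤ L ∧ L < m ∧ L % 4 = 2)) : ∃ L' : ℕ, (L' : ℤ) = L ∧ 3 ≤ L' ∧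
      ¬ HasRainbowCycle c L' := by
  have h1 := N.htn
  have h2 := N.ht
  have h3 := N.hm
  refine ⟨L.toNat, by omega, by omega, ?_⟩
  rcases h with h | h
  · rw [show L.toNat = n by omega]; exact N.no
  · exact N.noL _ (by omega) (by omega) (by omega)

end Pool.Agent.helper64.RF
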