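import Mathlib
import Pool.Agent.helper64.RF.Near

set_option autoImplicit false

/-! # Labels of the chords `C_x`, `H_x`, and the first constraints (adapted from
`Pool.Agent.helper94.RB.Fact1`) -/

namespace Pool.Agent.helper64.RF

open Pool.Agent.helper94.Rainbow Pool.Agent.helper94.RainbowTwice Pool.Agent.helper94.RB

variable {V C : Type} {c : Sym2 V → C} {n t m : ℕ} {v : ℤ → V} {cc hh : ℤ → ℤ}

/-- The labels `cc x ∈ [x, x + n - 2]` of the chord `C_x = (x, x + n - 1)` and
`hh x ∈ [x, x + 2n - 4]` of the chord `H_x = (x - t + 1, x)`. -/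
structure Lbl (c : Sym2 V → C) (n t m : ℕ) (v : ℤ → V) (cc hh : ℤ → ℤ) : Prop
    extends Base c n t m v where
  clo : ∀ x, x ≤ cc x
  chi : ∀ x, cc x ≤ x + n - 2
  ceq : ∀ x, Col c v x (x + n - 1) (cc x)
  cper : ∀ x, cc (x + m) = cc x + m
  hlo : ∀ x, x ≤ hh x
  hhi : ∀ x, hh x ≤ x + 2 * n - 4
  heq : ∀ x, Col c v (x - t + 1) x (hh x)
  hper : ∀ x, hh (x + m) = hh x + m

theorem exists_lbl (N : Base c n t m v) : ∃ cc hh, Lbl c n t m v cc hh := by
  have hne := N.hn
  have hte := N.hte
  have hm := N.hm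
  have ht := N.ht
  have htn := N.htn
  have h1 : ∀ x : ℤ, ∃ q, x ≤ q ∧ q ≤ x + n - 2 ∧ Col c v x (x + n - 1) q := by
    intro x
    have W := Wk.arc (c := c) (v := v) (x := x) (y := x + n - 1) (l := x) (r := x + n - 1)
      (z := x + n - 1) (Or.inl ⟨rfl, rfl⟩) (by omega) (by omega)
    obtain ⟨q, hq, hq'⟩ := uno N.F W N.no (by omega) (by omega) (by omega) (by omega)
    exact ⟨q, by omega, by omega, hq.symm⟩
  have h2 : ∀ x : ℤ, ∃ q, x ≤ q ∧ q ≤ x + 2 * n - 4 ∧ Col c v (x - t + 1) x q := by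
    intro x
    obtain ⟨L, hL1, hL2, hL3⟩ := N.absent (L := 2 * n - 2) (Or.inr (by omega))
    have W := Wk.arc (c := c) (v := v) (x := x) (y := x + 2 * n - 3) (l := x)
      (r := x + 2 * n - 3) (z := x + 2 * n - 3) (Or.inl ⟨rfl, rfl⟩) (by omega) (by omega)
    obtain ⟨q, hq, hq'⟩ := uno N.F W hL3 hL2 (by omega) (by omega) (by omega)
    exact ⟨q, by omega, by omega, hq.shift1 N.F (by omega) (by omega) (by omega)⟩
  choose cc a1 a2 a3 using h1
  choose hh b1 b2 b3 using h2
  refine ⟨cc, hh, N, a1, a2, a3, ?_, b1, b2, b3, ?_⟩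
  · intro x
    have e1 := a1 x
    have e2 := a2 x
    have e3 := a1 (x + m)
    have e4 := a2 (x + m)
    exact Col.uniq_window N.F (B := x + m) (a3 (x + m))
      ((a3 x).shift1 N.F (by omega) (by omega) (by omega)) (by omega) (by omega) (by omega)
      (by omega)
  · intro x
    have e1 := b1 x
    have e2 := b2 x
    have e3 := b1 (x + m)
    have e4 := b2 (x + m)
    exact Col.uniq_window N.F (B := x + m) (b3 (x + m))
      ((b3 x).shift1 N.F (by omega) (by omega) (by omega)) (by omega) (by omega) (by omega)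
      (by omega)

/-- Fact 1: if `C_i` lies inside the long arc of `H_p` and the label of `H_p` is in
`[i, i + n - 2]` then the labels of `C_i` and `H_p` agree. -/
theorem Lbl.fact1 (L : Lbl c n t m v cc hh) {p i : ℤ} (h1 : p ≤ i) (h2 : i ≤ p + n - 2)
    (h3 : i ≤ hh p) (h4 : hh p ≤ i + n - 2) : cc i = hh p := by
  have hm := L.hm
  have ht := L.ht
  have htn := L.htn
  have c1 := L.clo i
  have c2 := L.chi i
  have c3 := L.hlo p
  have c4 := L.hhi p
  by_contra hne
  have W := Wk.arc (c := c) (v := v) (x := p) (y := i) (l := p) (r := i)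
    (z := i) (Or.inl ⟨rfl, rfl⟩) (by omega) (by omega)
  obtain ⟨q, hq, hq'⟩ := duo L.F W L.no (by omega) (i + n - 1) (p + 2 * n - 3) (i + n - 1)
    (p + 2 * n - 3) (cc i) p p (L.ceq i) (by omega) (by omega) (by omega) (by omega) (by omega)
    (by omega) (by omega)
  have h5 := Col.uniq_window L.F (B := p) (hq.shift1 L.F (x' := p - t + 1) (y' := p)
    (g' := q) (by omega) (by omega) (by omega)) (L.heq p) (by omega) (by omega) (by omega)
    (by omega)
  omega

/-- two crossing chords `C_i`, `C_{i+X}` with `m + 2 - 2X` an absent length -/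
theorem Lbl.CC (L : Lbl c n t m v cc hh) (i X : ℤ) (h1 : 1 ≤ X) (h2 : X ≤ n - 2)
    (h3 : m + 2 - 2 * X = n ∨ (2 * n - 3 ≤ m + 2 - 2 * X ∧ m + 2 - 2 * X < m ∧
      (m + 2 - 2 * X) % 4 = 2)) :
    X ≤ cc i - i ∨ cc (i + X) - (i + X) ≤ n - 2 - X := by
  have hm := L.hm
  have ht := L.ht
  have htn := L.htn
  have c1 := L.clo i
  have c2 := L.chi i
  have c3 := L.clo (i + X)
  have c4 := L.chi (i + X)
  obtain ⟨L', hL1, hL2, hL3⟩ := L.toBase.absent h3
  by_contra hcon
  push Not at hcon
  -- from `i + n - 1` down to `i + X`, `C_{i+X}`, up to `i + m`, closed by `C_i`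
  have W := Wk.arc (c := c) (v := v) (x := i + n - 1) (y := i + X) (l := i + X) (r := i + n - 1)
    (z := i + n - 1) (Or.inr ⟨rfl, rfl⟩) (by omega) (by omega)
  obtain ⟨q, hq, hq'⟩ := duo L.F W hL3 hL2 (i + X + n - 1) (i + m) (i + X + n - 1) (i + m)
    (cc (i + X)) (i + X) (i + X) (L.ceq (i + X)) (by omega) (by omega) (by omega) (by omega)
    (by omega) (by omega) (by omega)
  have h5 := Col.uniq_window L.F (B := i + X) (hq.shift1 L.F (x' := i) (y' := i + n - 1)
    (g' := q) (by omega) (by omega) (by omega)) ((L.ceq i).shift1 L.F (x' := i) (y' := i + n - 1)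
    (g' := cc i + m) (by omega) (by omega) (by omega)) (by omega) (by omega) (by omega)
    (by omega)
  omega

/-- the reflected labels -/
theorem Lbl.reflect (L : Lbl c n t m v cc hh) :
    Lbl c n t m (fun x => v (-x)) (fun x => -1 - cc (-x - n + 1))
      (fun x => x + (2 * n - 4) - (hh (-x + t - 1) - (-x + t - 1))) := by
  have hm := L.hm
  have ht := L.ht
  have htn := L.htn
  have key : ∀ x y g : ℤ, Col c v (-x) (-y) (-g - 1) → Col c (fun x => v (-x)) x y g := by
    intro x y g h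
    unfold Col at *
    show c s(v (-x), v (-y)) = c s(v (-g), v (-(g + 1)))
    rw [h, Sym2.eq_swap]
    congr 3 <;> ring
  refine ⟨⟨L.F.reflect, L.hm, L.ht, L.htn, L.hn, L.hte, L.no, L.noL⟩, ?_, ?_, ?_, ?_, ?_, ?_, ?_, ?_⟩
  · intro x
    have := L.chi (-x - n + 1)
    show x ≤ -1 - cc (-x - n + 1)
    omega
  · intro x
    have := L.clo (-x - n + 1)
    show -1 - cc (-x - n + 1) ≤ x + n - 2
    omega
  · intro x
    apply key
    have := (L.ceq (-x - n + 1)).symm
    refine this.shift1 L.F (by omega) (by omega) (Or.inl ?_)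
    show -(-1 - cc (-x - n + 1)) - 1 = cc (-x - n + 1)
    ring
  · intro x
    show -1 - cc (-(x + m) - n + 1) = -1 - cc (-x - n + 1) + m
    have := L.cper (-(x + m) - n + 1)
    rw [show -(x + (m : ℤ)) - n + 1 + m = -x - n + 1 by ring] at this
    omega
  · intro x
    have := L.hhi (-x + t - 1)
    show x ≤ x + (2 * n - 4) - (hh (-x + t - 1) - (-x + t - 1))
    omega
  · intro x
    have := L.hlo (-x + t - 1)
    show x + (2 * n - 4) - (hh (-x + t - 1) - (-x + t - 1)) ≤ x + 2 * n - 4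
    omega
  · intro x
    apply key
    have := (L.heq (-x + t - 1)).symm
    refine this.shift1 L.F (by omega) (by omega) ?_
    show -(x + (2 * n - 4) - (hh (-x + t - 1) - (-x + t - 1))) - 1 = hh (-x + t - 1) ∨ _
    right
    omega
  · intro x
    show x + m + (2 * n - 4) - (hh (-(x + m) + t - 1) - (-(x + m) + t - 1)) =
      x + (2 * n - 4) - (hh (-x + t - 1) - (-x + t - 1)) + m
    have := L.hper (-(x + m) + t - 1)
    rw [show -(x + (m : ℤ)) + t - 1 + m = -x + t - 1 by ring] at this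
    omega

/-- if all `H_p` are of near type then we have a near structure -/
theorem Lbl.near (L : Lbl c n t m v cc hh) (h : ∀ p, hh p ≤ p + n - 2) :
    Near c n t m v cc := by
  have e : ∀ p, cc p = hh p := fun p => L.fact1 le_rfl (by have := L.htn; omega) (L.hlo p) (h p)
  refine ⟨L.toBase, L.clo, ?_, L.cper, L.ceq, ?_⟩
  · intro x y h1 h2
    rw [e x] at h2 ⊢
    have := h x
    exact L.fact1 h1 (by omega) h2 (by omega)
  · intro x
    rw [e x]; exact L.heq x

end Pool.Agent.helper64.RF
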