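import Mathlib
import Pool.Agent.helper64.RF.Near
import Pool.Agent.helper64.RF.Fact1

set_option autoImplicit false

/-! # The near dichotomy for `n = 2 mod 4` (adapted from `Pool.Agent.helper94.RB.NearOdd`) -/

namespace Pool.Agent.helper64.RF

open Pool.Agent.helper94.Rainbow Pool.Agent.helper94.RainbowTwice Pool.Agent.helper94.RB

variable {V C : Type} {c : Sym2 V → C} {n t m : ℕ} {v : ℤ → V} {cc hh : ℤ → ℤ}

/-- periodicity of the labels -/
theorem Lbl.ocper_nat (L : Lbl c n t m v cc hh) (x : ℤ) (k : ℕ) :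
    cc (x + k * m) = cc x + k * m := by
  induction k with
  | zero => simp
  | succ k ih =>
    have h1 := L.cper (x + k * m)
    rw [ih] at h1
    rw [show x + ((k + 1 : ℕ) : ℤ) * m = x + k * m + m by push_cast; ring, h1]
    push_cast; ring

theorem Lbl.ocper_int (L : Lbl c n t m v cc hh) (x k : ℤ) :
    cc (x + k * m) = cc x + k * m := by
  rcases le_total 0 k with h | h
  · have := L.ocper_nat x k.toNat
    rw [show ((k.toNat : ℕ) : ℤ) = k by omega] at this
    exact this
  · have := L.ocper_nat (x + k * m) (-k).toNat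
    rw [show (((-k).toNat : ℕ) : ℤ) = -k by omega] at this
    rw [show x + k * (m : ℤ) + -k * m = x by ring] at this
    rw [this]; ring

/-- the facts about low points -/
theorem Lbl.olow_iter (L : Lbl c n t m v cc hh) {X X' : ℤ} (hX : 2 * X = n - 2 + t)
    (hX' : 2 * X' = n - 2 - t) {i : ℤ} (hi : cc i - i < X) (k : ℕ) :
    cc (i + (k + 1 : ℕ) * X) - (i + (k + 1 : ℕ) * X) ≤ X' := by
  have hm := L.hm
  have ht := L.ht
  have htn := L.htn
  induction k with
  | zero =>
    have h1 := L.CC i X (by omega) (by omega) (Or.inl (by omega))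
    rw [show i + ((0 + 1 : ℕ) : ℤ) * X = i + X by push_cast; ring]
    omega
  | succ k ih =>
    have h1 := L.CC (i + (k + 1 : ℕ) * X) X (by omega) (by omega) (Or.inl (by omega))
    rw [show i + ((k + 1 + 1 : ℕ) : ℤ) * X = i + (k + 1 : ℕ) * X + X by push_cast; ring]
    omega

theorem Lbl.olow_self (L : Lbl c n t m v cc hh) {X X' : ℤ} (hX : 2 * X = n - 2 + t)
    (hX' : 2 * X' = n - 2 - t) {i : ℤ} (hi : cc i - i < X) : cc i - i ≤ X' := by
  have hm := L.hm
  have ht := L.ht
  have htn := L.htn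
  obtain ⟨k, hk⟩ : ∃ k : ℕ, m = k + 1 := ⟨m - 1, by omega⟩
  have h1 := L.olow_iter hX hX' hi k
  rw [← hk] at h1
  have h2 := L.ocper_int i X
  rw [show i + (m : ℤ) * X = i + X * m by ring, h2] at h1
  linarith

theorem Lbl.olow_next (L : Lbl c n t m v cc hh) {X X' : ℤ} (hX : 2 * X = n - 2 + t)
    (hX' : 2 * X' = n - 2 - t) {i : ℤ} (hi : cc i - i < X) :
    cc (i + n - 2) - (i + n - 2) < X := by
  have hm := L.hm
  have ht := L.ht
  have htn := L.htn
  obtain ⟨k, hk⟩ : ∃ k : ℕ, m = k + 3 := ⟨m - 3, by omega⟩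
  have h1 := L.olow_iter hX hX' hi k
  have e1 : i + ((k + 1 : ℕ) : ℤ) * X = i + n - 2 + (X - 1) * m := by
    have : (n : ℤ) - 2 = m - 2 * X := by omega
    have hk' : (m : ℤ) = k + 3 := by exact_mod_cast hk
    rw [show i + (n : ℤ) - 2 = i + (m - 2 * X) by linarith, hk']
    push_cast
    ring
  rw [e1, L.ocper_int] at h1
  have : cc (i + n - 2) - (i + n - 2) ≤ X' := by linarith
  omega

/-- a near type point -/
theorem Lbl.ontype (L : Lbl c n t m v cc hh) {X X' : ℤ} (hX : 2 * X = n - 2 + t)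
    (hX' : 2 * X' = n - 2 - t) {p : ℤ} (hp : hh p ≤ p + n - 2) :
    ∀ i, p ≤ i → i ≤ hh p → cc i = hh p ∧ cc i - i ≤ X' := by
  have hm := L.hm
  have ht := L.ht
  have htn := L.htn
  have hrun : ∀ i, p ≤ i → i ≤ hh p → cc i = hh p := fun i h1 h2 =>
    L.fact1 h1 (by omega) h2 (by omega)
  have hpx : hh p - p ≤ X' := by
    by_contra hcon
    have h1 := hrun (hh p - (X' + 1)) (by omega) (by omega)
    have h2 := L.olow_self hX hX' (i := hh p - (X' + 1)) (by omega)
    omega
  intro i h1 h2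
  have := hrun i h1 h2
  exact ⟨this, by omega⟩

/-- a far type point -/
theorem Lbl.oftype (L : Lbl c n t m v cc hh) {X X' : ℤ} (hX : 2 * X = n - 2 + t)
    (hX' : 2 * X' = n - 2 - t) {p : ℤ} (hp : p + n - 1 ≤ hh p) :
    ∀ i, hh p - n + 2 ≤ i → i ≤ p + n - 2 → cc i = hh p ∧ X ≤ cc i - i := by
  have hm := L.hm
  have ht := L.ht
  have htn := L.htn
  have hhi := L.hhi p
  have hrun : ∀ i, hh p - n + 2 ≤ i → i ≤ p + n - 2 → cc i = hh p := fun i h1 h2 =>
    L.fact1 (by omega) (by omega) (by omega) (by omega)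
  intro i h1 h2
  have h3 := hrun i h1 h2
  refine ⟨h3, ?_⟩
  by_contra hcon
  have h4 := L.olow_self hX hX' (i := i) (by omega)
  have h5 := hrun (hh p - (X' + 1)) (by omega) (by omega)
  have h6 := L.olow_self hX hX' (i := hh p - (X' + 1)) (by omega)
  omega

/-- far type points are not low -/
theorem Lbl.oftype_not_low (L : Lbl c n t m v cc hh) {X X' : ℤ} (hX : 2 * X = n - 2 + t)
    (hX' : 2 * X' = n - 2 - t) {p : ℤ} (hp : p + n - 1 ≤ hh p) : X ≤ cc p - p := by
  have ht := L.ht
  have htn := L.htn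
  have hhi := L.hhi p
  by_contra hcon
  have h1 := L.olow_next hX hX' (i := p) (by omega)
  have h2 := (L.oftype hX hX' hp (p + n - 2) (by omega) le_rfl).2
  omega

/-- low points are moved to low points by multiples of `X` -/
theorem Lbl.olow_mul (L : Lbl c n t m v cc hh) {X X' : ℤ} (hX : 2 * X = n - 2 + t)
    (hX' : 2 * X' = n - 2 - t) {i : ℤ} (hi : cc i - i < X) (j : ℕ) (hj : 1 ≤ j) (l i' : ℤ)
    (hi' : i' = i + j * X - l * m) : cc i' - i' < X := by
  have ht := L.ht
  have h1 := L.olow_iter hX hX' hi (j - 1)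
  rw [Nat.sub_add_cancel hj] at h1
  have h2 := L.ocper_int i' l
  rw [show i' + l * (m : ℤ) = i + j * X by rw [hi']; ring] at h2
  rw [h2] at h1
  rw [show i' = i + j * X - l * m from hi'] at h1 ⊢
  omega

/-- high points are moved to high points by `n - 2` -/
theorem Lbl.ohigh_next (L : Lbl c n t m v cc hh) {X X' : ℤ} (hX : 2 * X = n - 2 + t)
    (hX' : 2 * X' = n - 2 - t) {i : ℤ} (hi : X ≤ cc i - i) :
    X ≤ cc (i + n - 2) - (i + n - 2) := by
  have hm := L.hm
  by_contra hcon
  have h1 := L.olow_mul hX hX' (i := i + n - 2) (by omega) 2 (by omega) 1 i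
    (by push_cast; linarith)
  omega

/-- the main step of the mixed case -/
theorem Lbl.omixed (L : Lbl c n t m v cc hh) {X X' : ℤ} (hX : 2 * X = n - 2 + t)
    (hX' : 2 * X' = n - 2 - t) {b : ℤ} (h1 : cc b - b < X) (h2 : X ≤ cc (b + 1) - (b + 1)) :
    cc b = b ∧ hh b = b ∧ cc (b + 1) - (b + 1) = n - 2 ∧
      ∀ p, p = b + 1 - (n - 2 : ℤ) → hh p = p + 2 * n - 4 := by
  have hm := L.hm
  have ht := L.ht
  have htn := L.htn
  have hb : hh b ≤ b + n - 2 := by
    by_contra hcon
    have := L.oftype_not_low hX hX' (p := b) (by omega)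
    omega
  have hN := L.ontype hX hX' hb
  have hhb := L.hlo b
  have hbb : hh b = b := by
    by_contra hne
    have := (hN (b + 1) (by omega) (by omega)).2
    omega
  have hcb : cc b = b := by
    have := (hN b le_rfl hhb).1
    omega
  obtain ⟨p, hp⟩ : ∃ p, p = b + 1 - (n - 2 : ℤ) := ⟨_, rfl⟩
  have hpl : X ≤ cc p - p := by
    by_contra hcon
    have := L.olow_next hX hX' (i := p) (by omega)
    rw [show p + (n : ℤ) - 2 = b + 1 by omega] at this
    omega
  have hpf : p + n - 1 ≤ hh p := by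
    by_contra hcon
    have := (L.ontype hX hX' (p := p) (by omega) p le_rfl (L.hlo p)).2
    omega
  have hF := L.oftype hX hX' hpf
  have h3 := L.hhi p
  have h4 : b + 1 ≤ hh p - n + 2 := by
    by_contra hcon
    have := (hF b (by omega) (by omega)).2
    omega
  have h5 := (hF (b + 1) (by omega) (by omega)).1
  refine ⟨hcb, hbb, by omega, ?_⟩
  rintro p' hp'
  rw [← hp] at hp'
  subst hp'
  omega

/-- the chords at odd distance `Y` from a boundary -/
theorem Lbl.odist (L : Lbl c n t m v cc hh) {X X' : ℤ} (hX : 2 * X = n - 2 + t)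
    (hX' : 2 * X' = n - 2 - t) {b Y : ℤ} (h1 : cc b - b < X) (h2 : X ≤ cc (b + 1) - (b + 1))
    (hY : 3 ≤ Y) (hYt : 2 * Y ≤ t) (hYo : Y % 2 = 1) :
    cc (b + Y) - (b + Y) < X ∧ X ≤ cc (b + 1 - Y) - (b + 1 - Y) := by
  have hm := L.hm
  have ht := L.ht
  have htn := L.htn
  have hte := L.hte
  have hn := L.hn
  obtain ⟨h3, h4, h5, -⟩ := L.omixed hX hX' h1 h2
  constructor
  · have h6 := L.CC b Y (by omega) (by omega) (Or.inr (by omega))
    by_contra hcon
    obtain ⟨p, hp⟩ : ∃ p, p = b + Y - (n - 2 : ℤ) := ⟨_, rfl⟩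
    have hpl : X ≤ cc p - p := by
      by_contra hcon
      have := L.olow_next hX hX' (i := p) (by omega)
      rw [show p + (n : ℤ) - 2 = b + Y by omega] at this
      omega
    have hpf : p + n - 1 ≤ hh p := by
      by_contra hcon
      have := (L.ontype hX hX' (p := p) (by omega) p le_rfl (L.hlo p)).2
      omega
    have hF := L.oftype hX hX' hpf
    have h3 := L.hhi p
    have h5 : b + 1 ≤ hh p - n + 2 := by
      by_contra hcon
      have := (hF b (by omega) (by omega)).2
      omega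
    have h6 := (hF (b + Y) (by omega) (by omega)).1
    omega
  · have h6 := L.CC (b + 1 - Y) Y (by omega) (by omega) (Or.inr (by omega))
    rw [show b + 1 - Y + Y = b + 1 by ring] at h6
    by_contra hcon
    have hbf : hh (b + 1 - Y) ≤ b + 1 - Y + n - 2 := by
      by_contra hcon2
      have := L.oftype_not_low hX hX' (p := b + 1 - Y) (by omega)
      omega
    have hN' := L.ontype hX hX' hbf
    have h5 : hh (b + 1 - Y) ≤ b := by
      by_contra hcon2
      have := (hN' (b + 1) (by omega) (by omega)).2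
      omega
    have h6 := (hN' (b + 1 - Y) le_rfl (L.hlo _)).1
    omega

/-- going up from a low point to the last low point of its run -/
theorem Lbl.oexists_last (L : Lbl c n t m v cc hh) {X : ℤ} {i j : ℤ} (hi : cc i - i < X)
    (hj : X ≤ cc j - j) : ∃ b, i ≤ b ∧ (∀ z, i ≤ z → z ≤ b → cc z - z < X) ∧
      X ≤ cc (b + 1) - (b + 1) := by
  have hm := L.hm
  have ht := L.ht
  have htn := L.htn
  have hex : ∃ z, i ≤ z ∧ X ≤ cc z - z := by
    obtain ⟨k, hk⟩ : ∃ k : ℕ, i ≤ j + k * m := by
      refine ⟨(i - j).toNat, ?_⟩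
      have h1 : (1 : ℤ) ≤ m := by omega
      have h2 : (i - j) ≤ ((i - j).toNat : ℤ) := Int.self_le_toNat _
      nlinarith [Int.natCast_nonneg (i - j).toNat]
    refine ⟨j + k * m, hk, ?_⟩
    rw [L.ocper_nat]
    omega
  obtain ⟨z0, ⟨h1, h2⟩, h3⟩ := Int.exists_least_of_bdd (P := fun z => i ≤ z ∧ X ≤ cc z - z)
    ⟨i, fun z hz => hz.1⟩ hex
  have hz : z0 ≠ i := by
    rintro rfl
    omega
  refine ⟨z0 - 1, by omega, ?_, ?_⟩
  · intro z hz1 hz2
    by_contra hcon
    have := h3 z ⟨hz1, by omega⟩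
    omega
  · rw [show z0 - 1 + 1 = z0 by ring]
    exact h2

/-- the chord `(x, x + 3)` in a pattern of period `3` -/
theorem Lbl.killB (L : Lbl c n t m v cc hh) (ht6 : t = 6) (x : ℤ) (h1 : hh x ≤ x + 1)
    (h2 : cc (x + n - 1) = x + n - 1) (h3 : cc (x + 2) = x + n) (h4 : hh (x + 5) = x + 2 * n + 1)
    (h5 : cc (x + 3) ≤ x + 4) : False := by
  have hm := L.hm
  have htn := L.htn
  have hn := L.hn
  have h1' := L.hlo x
  have h5' := L.clo (x + 3)
  have c1 : Col c v x (x + m - 5) (hh x) :=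
    (L.heq x).symm.shift1 L.F (by omega) (by omega) (by omega)
  have P := Wk.single (c := c) (v := v) x (E := x) (E' := x - 1) (z := x)
  -- first cycle
  have c2 : Col c v (x + m - 4) (x + n - 1) (x + n - 1) := by
    have := (L.ceq (x + n - 1)).symm
    rw [h2] at this
    exact this.shift1 L.F (by omega) (by omega) (by omega)
  obtain ⟨q1, r1, r1'⟩ := tri L.F P L.no (by omega) (x + m - 5) (x + m - 4)
    (x + m - 5) (x + m - 4) (hh x) (x + n - 1) (x + 3) (x + 3) (x + n - 1) (x + n - 1) x x c1 c2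
    (by omega) (by omega) (by omega) (by omega) (by omega) (by omega) (by omega) (by omega)
    (by omega)
  -- second cycle
  have c3 : Col c v (x + n + 1) (x + 2) (x + n) := by
    have := (L.ceq (x + 2)).symm
    rw [h3] at this
    exact this.shift1 L.F (by omega) (by omega) (by omega)
  obtain ⟨q2, r2, r2'⟩ := tri L.F P L.no (by omega) (x + m - 5) (x + n + 1)
    (x + n + 1) (x + m - 5) (hh x) (x + 2) (x + 3) (x + 2) (x + 3) (x + n) x x c1 c3
    (by omega) (by omega) (by omega) (by omega) (by omega) (by omega) (by omega) (by omega)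
    (by omega)
  -- third cycle
  have c4 : Col c v x (x + 5) (x + 2 * n + 1) := by
    have := L.heq (x + 5)
    rw [h4] at this
    exact this.shift1 L.F (by omega) (by omega) (by omega)
  have c5 : Col c v (x + n + 2) (x + 3) (cc (x + 3)) :=
    (L.ceq (x + 3)).symm.shift1 L.F (by omega) (by omega) (by omega)
  obtain ⟨q3, r3, r3'⟩ := tri L.F P L.no (by omega) (x + 5) (x + n + 2)
    (x + 5) (x + n + 2) (x + 2 * n + 1) (x + 3) (x + 3) (x + 3) (x + 3) (cc (x + 3)) x x c4 c5
    (by omega) (by omega) (by omega) (by omega) (by omega) (by omega) (by omega) (by omega)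
    (by omega)
  have u1 := r1.uniq_window L.F r2 (B := x) (by omega) (by omega) (by omega) (by omega)
  have u2 := r1.uniq_window L.F r3 (B := x) (by omega) (by omega) (by omega) (by omega)
  omega

/-- the pattern low, low, high of period `3` -/
theorem Lbl.patB (L : Lbl c n t m v cc hh) {X X' : ℤ} (hX : 2 * X = n - 2 + t)
    (hX' : 2 * X' = n - 2 - t) (ht6 : t = 6) {q : ℕ} (hq : n = 12 * q + 2) {b : ℤ}
    (h1 : cc (b - 1) - (b - 1) < X) (h2 : cc b - b < X) (h3 : X ≤ cc (b + 1) - (b + 1)) :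
    False := by
  have hm := L.hm
  have htn := L.htn
  have hte := L.hte
  have hn := L.hn
  have hXq : X = 6 * q + 3 := by omega
  have hmq : (m : ℤ) = 24 * q + 6 := by omega
  -- moving by `3`
  have hup : ∀ {i : ℤ}, cc i - i < X → cc (i + 3) - (i + 3) < X := by
    intro i hi
    refine L.olow_mul hX hX' hi (20 * q + 7) (by omega) (5 * q + 3) _ ?_
    rw [hXq, hmq]
    push_cast
    ring
  have hdn : ∀ {i : ℤ}, X ≤ cc i - i → X ≤ cc (i + 3) - (i + 3) := by
    intro i hi
    by_contra hcon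
    have := L.olow_mul hX hX' (i := i + 3) (by omega) (4 * q - 1) (by omega) q i (by
      rw [hXq, hmq]
      push_cast [show 1 ≤ 4 * q by omega]
      ring)
    omega
  have k1 := hup h1
  have k2 := hup h2
  have k3 := hdn h3
  rw [show b - 1 + 3 = b + 2 by ring] at k1
  rw [show b + 1 + 3 = b + 4 by ring] at k3
  -- near points
  have hnear : ∀ {i : ℤ}, cc i - i < X → X ≤ cc (i + 2) - (i + 2) → hh i ≤ i + 1 ∧ cc i ≤ i + 1 := by
    intro i hi hi2
    have hif : hh i ≤ i + n - 2 := by
      by_contra hcon2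
      have := L.oftype_not_low hX hX' (p := i) (by omega)
      omega
    have hN' := L.ontype hX hX' hif
    have h5 : hh i ≤ i + 1 := by
      by_contra hcon2
      have := (hN' (i + 2) (by omega) (by omega)).2
      omega
    have h6 := (hN' i le_rfl (L.hlo _)).1
    omega
  have e1 := hnear h1 (by rw [show b - 1 + 2 = b + 1 by ring]; exact h3)
  have e2 := hnear k1 (by rw [show b + 2 + 2 = b + 4 by ring]; exact k3)
  obtain ⟨-, -, e3, -⟩ := L.omixed hX hX' h2 h3
  -- the boundary `b + n - 2`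
  have l1 := L.olow_next hX hX' h2
  have l2 := L.ohigh_next hX hX' h3
  obtain ⟨e4, -, -, -⟩ := L.omixed hX hX' (b := b + n - 2) l1 (by
    rw [show b + (n : ℤ) - 2 + 1 = b + 1 + n - 2 by ring]; exact l2)
  -- the boundary `b + 3 + n - 2`
  have l3 := L.olow_next hX hX' k2
  have l4 := L.ohigh_next hX hX' k3
  obtain ⟨-, -, -, e5⟩ := L.omixed hX hX' (b := b + 3 + n - 2) l3 (by
    rw [show b + 3 + (n : ℤ) - 2 + 1 = b + 4 + n - 2 by ring]; exact l4)
  have e6 := e5 (b + 4) (by ring)
  refine L.killB ht6 (b - 1) e1.1 ?_ ?_ ?_ ?_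
  · rw [show b - 1 + (n : ℤ) - 1 = b + n - 2 by ring]; exact e4
  · rw [show b - 1 + 2 = b + 1 by ring]; omega
  · rw [show b - 1 + 5 = b + 4 by ring]; omega
  · rw [show b - 1 + 3 = b + 2 by ring]; omega

/-- there is no mixed case -/
theorem Lbl.no_mixed (L : Lbl c n t m v cc hh) {X X' : ℤ} (hX : 2 * X = n - 2 + t)
    (hX' : 2 * X' = n - 2 - t) {b : ℤ} (h1 : cc b - b < X) (h2 : X ≤ cc (b + 1) - (b + 1)) :
    False := by
  have hm := L.hm
  have ht3 := L.ht
  have htn := L.htn
  have hte := L.hte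
  have hn := L.hn
  rcases Nat.lt_or_ge t 7 with ht | ht
  · have ht6 : t = 6 := by omega
    obtain ⟨q, hq⟩ : ∃ q : ℕ, n = 12 * q + 2 ∨ n + 2 = 12 * q ∨ n + 6 = 12 * q :=
      ⟨(n + 6) / 12, by omega⟩
    rcases hq with hq | hq | hq
    · have hXq : X = 6 * q + 3 := by omega
      have hmq : (m : ℤ) = 24 * q + 6 := by omega
      by_cases h3 : cc (b - 1) - (b - 1) < X
      · exact L.patB hX hX' ht6 hq h3 h1 h2
      · -- `b + 2` is high
        have h4 : X ≤ cc (b + 2) - (b + 2) := by
          by_contra hcon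
          have := L.olow_mul hX hX' (i := b + 2) (by omega) (4 * q - 1) (by omega) q (b - 1) (by
            rw [hXq, hmq]
            push_cast [show 1 ≤ 4 * q by omega]
            ring)
          omega
        have h5 := L.olow_self hX hX' h1
        refine L.reflect.patB hX hX' ht6 hq (b := -b - n) ?_ ?_ ?_
        · show -1 - cc (-(-b - n - 1) - n + 1) - (-b - n - 1) < X
          rw [show -(-b - (n : ℤ) - 1) - n + 1 = b + 2 by ring]
          omega
        · show -1 - cc (-(-b - n) - n + 1) - (-b - n) < X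
          rw [show -(-b - (n : ℤ)) - n + 1 = b + 1 by ring]
          omega
        · show X ≤ -1 - cc (-(-b - n + 1) - n + 1) - (-b - n + 1)
          rw [show -(-b - (n : ℤ) + 1) - n + 1 = b by ring]
          omega
    · have hXq : X = 6 * q + 1 := by omega
      have hmq : (m : ℤ) = 24 * q - 2 := by omega
      have := L.olow_mul hX hX' h1 (20 * q - 1) (by omega) (5 * q + 1) (b + 1) (by
        rw [hXq, hmq]
        push_cast [show 1 ≤ 20 * q by omega]
        ring)
      omega
    · have hXq : X = 6 * q - 1 := by omega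
      have hmq : (m : ℤ) = 24 * q - 10 := by omega
      have := L.olow_mul hX hX' h1 (4 * q - 1) (by omega) q (b + 1) (by
        rw [hXq, hmq]
        push_cast [show 1 ≤ 4 * q by omega]
        ring)
      omega
  · have ht10 : 10 ≤ t := by omega
    -- the next boundary is `b + 3`
    have key : ∀ {b : ℤ}, cc b - b < X → X ≤ cc (b + 1) - (b + 1) →
        cc (b + 3) - (b + 3) < X ∧ X ≤ cc (b + 3 + 1) - (b + 3 + 1) := by
      intro b h1 h2
      obtain ⟨h3, -⟩ := L.odist hX hX' h1 h2 (Y := 3) (by omega) (by omega) (by omega)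
      obtain ⟨h4, -⟩ := L.odist hX hX' h1 h2 (Y := 5) (by omega) (by omega) (by omega)
      obtain ⟨b1, h7, h8, h9⟩ := L.oexists_last h3 h2
      obtain ⟨-, h10⟩ := L.odist hX hX' (h8 b1 h7 le_rfl) h9 (Y := 3) (by omega) (by omega)
        (by omega)
      have h11 : b1 < b + 5 := by
        by_contra hcon
        have := h8 (b1 + 1 - 3) (by omega) (by omega)
        omega
      have h12 : b1 ≠ b + 4 := by
        intro h13
        rw [show b1 + 1 = b + 5 by omega] at h9
        omega
      have h13 : b1 = b + 3 := by omega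
      subst h13
      exact ⟨h3, h9⟩
    have a1 := key h1 h2
    have a2 := key a1.1 a1.2
    have a3 := key a2.1 a2.2
    have h3 := (L.odist hX hX' h1 h2 (Y := 5) (by omega) (by omega) (by omega)).1
    have h4 := (L.odist hX hX' a3.1 a3.2 (Y := 5) (by omega) (by omega) (by omega)).2
    rw [show b + 3 + 3 + 3 + 1 - 5 = b + 5 by ring] at h4
    omega

/-- after a possible reflection the chords `C_x` and `H_x` form a near structure, with
all blocks of size at most `(n - t) / 2`. -/
theorem near_dich (N : Base c n t m v) :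
    ∃ v' β, Near c n t m v' β ∧ ∀ x, 2 * (β x - x) + 2 + t ≤ n := by
  obtain ⟨cc, hh, L⟩ := exists_lbl N
  have hm := L.hm
  have ht3 := L.ht
  have htn := L.htn
  have hte := L.hte
  have hne := L.hn
  obtain ⟨u, hu⟩ : ∃ u : ℕ, t = 2 * u := ⟨t / 2, by omega⟩
  obtain ⟨h, hh'⟩ : ∃ h : ℕ, n = 2 * h + 2 := ⟨(n - 2) / 2, by omega⟩
  obtain ⟨X, hX0⟩ : ∃ X : ℤ, X = h + u := ⟨_, rfl⟩
  obtain ⟨X', hX0'⟩ : ∃ X' : ℤ, X' = h - u := ⟨_, rfl⟩
  have hX : 2 * X = n - 2 + t := by omega
  have hX' : 2 * X' = n - 2 - t := by omega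
  by_cases hall : ∀ i, cc i - i < X
  · -- all points are low
    refine ⟨v, cc, L.near ?_, ?_⟩
    · intro p
      by_contra hcon
      have h1 := L.oftype_not_low hX hX' (p := p) (by omega)
      have h2 := hall p
      omega
    · intro x
      have := L.olow_self hX hX' (hall x)
      omega
  by_cases hnone : ∀ i, X ≤ cc i - i
  · -- no point is low
    have hF : ∀ p, p + n - 1 ≤ hh p := by
      intro p
      by_contra hcon
      have h1 := (L.ontype hX hX' (p := p) (by omega) p le_rfl (L.hlo p)).2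
      have h2 := hnone p
      omega
    refine ⟨_, _, L.reflect.near ?_, ?_⟩
    · intro p
      show p + (2 * n - 4) - (hh (-p + t - 1) - (-p + t - 1)) ≤ p + n - 2
      have := hF (-p + t - 1)
      omega
    · intro x
      show 2 * (-1 - cc (-x - n + 1) - x) + 2 + t ≤ n
      have := hnone (-x - n + 1)
      omega
  -- the mixed case
  exfalso
  push Not at hall hnone
  obtain ⟨j, hj⟩ := hall
  obtain ⟨i, hi⟩ := hnone
  obtain ⟨b0, hib, h2, h3⟩ := L.oexists_last hi hj
  exact L.no_mixed hX hX' (h2 b0 hib le_rfl) h3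

end Pool.Agent.helper64.RF
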