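import Mathlib
import Pool.Agent.helper64.RF.AA

set_option autoImplicit false

/-!
# Chains of chords owned by their upper ends, for `n = 2 mod 4`
-/

namespace Pool.Agent.helper64.RF

open Pool.Agent.helper94.Rainbow Pool.Agent.helper94.RainbowTwice Pool.Agent.helper94.RB

variable {V C : Type} {c : Sym2 V → C} {n t m : ℕ} {v : ℤ → V} {β : ℤ → ℤ} {p q k w : ℤ}

/-- a descending walk from `p` to `q` with `k` vertices -/
def Down (c : Sym2 V → C) (v : ℤ → V) (β : ℤ → ℤ) (p q k : ℤ) : Prop :=
  Wk c v q p q (β p) (β q) p q k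

/-- an ascending walk from `p` to `q` with `k` vertices -/
def Up (c : Sym2 V → C) (v : ℤ → V) (β : ℤ → ℤ) (p q k : ℤ) : Prop :=
  Wk c v p q p (β q) (β p) p q k

theorem Down.single (p : ℤ) : Down c v β p p 1 := Wk.single p

theorem Down.step (N : Near c n t m v β) (h : Down c v β p q k) (hqp : q ≤ p) {q' : ℤ}
    (h1 : β q' < q) (hc : Col c v q' q (β q)) : Down c v β p q' (k + 1) := by
  have b1 := N.le q
  have b2 := N.le q'
  have b3 := N.mono hqp
  exact Wk.join h (Wk.single q' (E := q') (E' := q' - 1) (z := q')) (β q) hc.symm q' p q' (β p)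
    (β q') (by omega) (by omega) (by omega) (by omega) (by omega) (by omega) (by omega)

theorem Up.arc (N : Near c n t m v β) (w j : ℤ) (hj : 0 ≤ j) (h : w + j ≤ β w) :
    Up c v β w (w + j) (j + 1) := by
  have b1 := N.blk w (w + j) (by omega) h
  have W := Wk.arc (c := c) (v := v) (x := w) (y := w + j) (l := w) (r := w + j)
    (z := β w) (Or.inl ⟨rfl, rfl⟩) (by omega) (by omega)
  rw [show w + j - w + 1 = j + 1 by ring] at W
  exact W.mono (by omega) (by omega) (by omega) (by omega) (by omega)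

theorem Up.step (N : Near c n t m v β) (h : Up c v β p q k) (hpq : p ≤ q) {q' : ℤ}
    (h1 : β q < q') (hc : Col c v q q' (β q')) : Up c v β p q' (k + 1) := by
  have b1 := N.le q
  have b2 := N.le q'
  have b3 := N.mono hpq
  have b4 := N.mono (show q ≤ q' by omega)
  exact Wk.join h (Wk.single q' (E := q') (E' := q' - 1) (z := q')) (β q') hc p q' p (β q')
    (β p) (by omega) (by omega) (by omega) (by omega) (by omega) (by omega) (by omega)

/-- iterating `H`-steps downwards -/
theorem Down.H (N : Near c n t m v β) (hS : ∀ x, β x ≤ x + t - 2) (h : Down c v β p q k)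
    (hqp : q ≤ p) (i : ℕ) : Down c v β p (q - i * (t - 1)) (k + i) := by
  have ht := N.ht
  induction i with
  | zero => simpa using h
  | succ i ih =>
    obtain ⟨a, ha⟩ : ∃ a : ℤ, a = q - i * (t - 1) := ⟨_, rfl⟩
    have h0 : (0 : ℤ) ≤ i * (t - 1) := mul_nonneg (by omega) (by omega)
    rw [← ha] at ih
    have e1 : q - ((i + 1 : ℕ) : ℤ) * (t - 1) = a - t + 1 := by rw [ha]; push_cast; ring
    have e2 : k + ((i + 1 : ℕ) : ℤ) = k + i + 1 := by push_cast; ring
    rw [e1, e2]
    have := hS (a - t + 1)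
    exact ih.step N (by omega) (by omega) (N.colH a)

/-- iterating `H`-steps upwards -/
theorem Up.H (N : Near c n t m v β) (hS : ∀ x, β x ≤ x + t - 2) (h : Up c v β p q k)
    (hpq : p ≤ q) (i : ℕ) : Up c v β p (q + i * (t - 1)) (k + i) := by
  have ht := N.ht
  induction i with
  | zero => simpa using h
  | succ i ih =>
    obtain ⟨a, ha⟩ : ∃ a : ℤ, a = q + i * (t - 1) := ⟨_, rfl⟩
    have h0 : (0 : ℤ) ≤ i * (t - 1) := mul_nonneg (by omega) (by omega)
    rw [← ha] at ih
    have e1 : q + ((i + 1 : ℕ) : ℤ) * (t - 1) = a + t - 1 := by rw [ha]; push_cast; ring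
    have e2 : k + ((i + 1 : ℕ) : ℤ) = k + i + 1 := by push_cast; ring
    rw [e1, e2]
    have h1 := hS a
    have h2 := N.colH (a + t - 1)
    rw [show a + (t : ℤ) - 1 - t + 1 = a by ring] at h2
    exact ih.step N (by omega) (by omega) h2

/-- no descending walk closes up to an `n`-cycle with two chords `C_x` -/
theorem Down.false (N : Near c n t m v β) (hS : ∀ x, β x ≤ x + t - 2) (h : Down c v β p q k)
    (hqp : q ≤ p) (hk : 1 ≤ k) (hcount : p - q + k = n - t + 1) : False := by
  have hm := N.hm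
  have ht := N.ht
  have htn := N.htn
  have b1 := N.le q
  have b2 := N.le p
  have b3 := N.mono hqp
  have b4 := hS p
  have b5 := hS (p - n + 1)
  have b6 := N.le (p - n + 1)
  obtain ⟨q0, hq, hq'⟩ := duo N.F h N.no (by omega) (q + n - 1) (p - n + 1 + m) (q + n - 1)
    (p - n + 1 + m) (β q) q q (N.colC q) (by omega) (by omega) (by omega) (by omega) (by omega)
    (by omega) (by omega)
  have c0 : Col c v (p - n + 1 + m) p (β (p - n + 1) + m) :=
    (N.colC (p - n + 1)).shift1 N.F (by omega) (by omega) (by omega)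
  have := hq.uniq_window N.F c0 (B := q) (by omega) (by omega) (by omega) (by omega)
  omega

/-- no ascending walk closes up to an `n`-cycle with two chords `C_x` -/
theorem Up.false (N : Near c n t m v β) (hS : ∀ x, β x ≤ x + t - 2) (h : Up c v β w q k)
    (h1 : k - 1 ≤ q - w) (h2 : 2 ≤ k) (hcount : q - w + k = n - t + 1) : False := by
  have hm := N.hm
  have ht := N.ht
  have htn := N.htn
  have hn := N.hn
  have hte := N.hte
  obtain ⟨N0, hN0⟩ : ∃ N0 : ℤ, 2 * N0 + t = n := ⟨((n : ℤ) - t) / 2, by omega⟩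
  obtain ⟨R, hR⟩ : ∃ R : ℤ, q = w + (N0 + R) := ⟨q - w - N0, by ring⟩
  subst hR
  refine aa_cycle N hN0 (M := t - 1) (R := R) (w := w) (fun x => by
    have := hS x; omega) (by omega) (by omega) (by omega) (by omega) ?_
  have e : k = N0 - R + 1 := by omega
  rw [← e]
  exact h

/-- the size bound -/
theorem Near.size (N : Near c n t m v β) (hS : ∀ x, β x ≤ x + t - 2) (l J : ℕ)
    (hJ : n = (l + 1) * t + 2 * J) (h1 : 1 ≤ J) (w : ℤ) : β w ≤ w + J - 1 := by
  by_contra hcon
  have ht := N.ht
  have U := (Up.arc N w J (by omega) (by omega)).H N hS (by omega) l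
  obtain ⟨P, hP⟩ : ∃ P : ℤ, P = l * t := ⟨_, rfl⟩
  have e1 : (l : ℤ) * (t - 1) = P - l := by rw [hP]; ring
  have e2 : (n : ℤ) = P + t + 2 * J := by rw [hJ, hP]; push_cast; ring
  have e3 : 2 * (l : ℤ) ≤ P := by
    rw [hP]
    have : (l : ℤ) * 2 ≤ l * t := by
      apply mul_le_mul_of_nonneg_left <;> omega
    omega
  rw [e1] at U
  exact U.false N hS (by omega) (by omega) (by omega)

/-- a chord of length `d = 1 mod 4`, `5 ≤ d ≤ t - 1`, is not owned by the block of its lower
end -/
theorem Near.long1 (N : Near c n t m v β) {d x : ℤ} (h1 : 5 ≤ d) (h2 : d ≤ t - 1)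
    (h3 : d % 4 = 1) (h4 : β x < x + d) (hc : Col c v x (x + d) (β x)) : False := by
  have hm := N.hm
  have ht := N.ht
  have htn := N.htn
  have hn := N.hn
  have hte := N.hte
  have b1 := N.le x
  obtain ⟨L, hL1, hL2, hL3⟩ := N.toBase.absent (L := m - d + 1) (Or.inr (by omega))
  obtain ⟨q, hq, hq'⟩ := uno N.F (Wk.arc (c := c) (v := v) (x := x + m) (y := x + d) (l := x + d)
    (r := x + m) (z := x + m) (Or.inr ⟨rfl, rfl⟩) (by omega) (by omega)) hL3 hL2 (by omega)
    (by omega) (by omega)
  have c0 : Col c v (x + d) (x + m) (β x) :=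
    hc.symm.shift1 N.F (by omega) (by omega) (by omega)
  have := hq.uniq_window N.F c0 (B := x) (by omega) (by omega) (by omega) (by omega)
  omega

/-- two disjoint chords of length `3` are not both owned by the blocks of their lower ends -/
theorem Near.long2 (N : Near c n t m v β) {x y : ℤ} (h1 : x + 3 ≤ y) (h2 : y + 3 ≤ x + m)
    (h3 : β x < x + 3) (h4 : β y < y + 3) (hx : Col c v x (x + 3) (β x))
    (hy : Col c v y (y + 3) (β y)) : False := by
  have hm := N.hm
  have ht := N.ht
  have htn := N.htn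
  have hn := N.hn
  have hte := N.hte
  have b1 := N.le x
  have b2 := N.le y
  obtain ⟨L, hL1, hL2, hL3⟩ := N.toBase.absent (L := m - 4) (Or.inr (by omega))
  have W := Wk.arc (c := c) (v := v) (x := x + 3) (y := y) (l := x + 3) (r := y)
    (z := y) (Or.inl ⟨rfl, rfl⟩) (by omega) (by omega)
  obtain ⟨q, hq, hq'⟩ := duo N.F W hL3 hL2 (y + 3) (x + m) (y + 3) (x + m) (β y) (x + 3) (x + 3)
    hy (by omega) (by omega) (by omega) (by omega) (by omega) (by omega) (by omega)
  have c0 : Col c v (x + m) (x + 3) (β x + m) :=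
    hx.shift1 N.F (by omega) (by omega) (by omega)
  have := hq.uniq_window N.F c0 (B := x + 3) (by omega) (by omega) (by omega) (by omega)
  omega

/-- each chord of odd length `2 j + 1 ≤ t - 1` is owned by the block of one of its ends, if the
blocks have size at most `j + 2` and the block of `x + j` ends before `x + 2 j + 1` -/
theorem Near.labD (N : Near c n t m v β) {j : ℤ} (hj : 1 ≤ j) (hjt : 2 * j + 2 ≤ t)
    (hjn : 4 * j + 4 ≤ n) (hS : ∀ y, β y ≤ y + j + 1) (x : ℤ) (h3 : β (x + j) < x + 2 * j + 1) :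
    Col c v x (x + (2 * j + 1)) (β x) ∨ Col c v x (x + (2 * j + 1)) (β (x + (2 * j + 1))) := by
  have hm := N.hm
  have ht := N.ht
  have htn := N.htn
  have hn := N.hn
  have hte := N.hte
  obtain ⟨h, hh⟩ : ∃ h : ℤ, (n : ℤ) = 2 * h + 2 := ⟨((n : ℤ) - 2) / 2, by omega⟩
  obtain ⟨s, hs⟩ : ∃ s : ℤ, s = 2 * j + 1 := ⟨_, rfl⟩
  rw [← hs]
  have b0 := N.le x
  have b1 := N.mono (show x ≤ x + j by omega)
  have b2 := N.le (x + j)
  have b3 := N.le (x + s)
  have b4 := hS (x + s)
  -- first cycle
  have P := Wk.single (c := c) (v := v) x (E := x) (E' := x - 1) (z := x)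
  have d1 := N.le (x + (h + j))
  have d2 := hS (x + (h + j))
  obtain ⟨q1, r1, r1'⟩ := tri N.F P N.no (by omega) (x + n - 1) (x + (h + j) + n - 1) (x + n - 1)
    (x + (h + j) + n - 1) (β x) (x + (h + j)) (x + s) (x + s) (x + (h + j)) (β (x + (h + j))) x x
    (N.colC x) (N.colC (x + (h + j))).symm
    (by omega) (by omega) (by omega) (by omega) (by omega) (by omega) (by omega) (by omega)
    (by omega)
  -- second cycle
  have d3 := N.le (x + n - 2 + j)
  have d4 := hS (x + n - 2 + j)
  have c2 : Col c v x (x - t + 1 + m) (β x) :=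
    (N.colH x).symm.shift1 N.F (by omega) (by omega) (by omega)
  have c3 : Col c v (x - t + 1 + m + j) (x + n - 2 + j) (β (x + n - 2 + j)) :=
    (N.colC (x + n - 2 + j)).symm.shift1 N.F (by omega) (by omega) (by omega)
  obtain ⟨q2, r2, r2'⟩ := tri N.F P N.no (by omega) (x - t + 1 + m) (x - t + 1 + m + j)
    (x - t + 1 + m) (x - t + 1 + m + j) (β x) (x + n - 2 + j) (x + s) (x + s) (x + n - 2 + j)
    (β (x + n - 2 + j)) x x c2 c3
    (by omega) (by omega) (by omega) (by omega) (by omega) (by omega) (by omega) (by omega)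
    (by omega)
  -- third cycle
  have P3 := Wk.arc (c := c) (v := v) (x := x) (y := x + j) (l := x) (r := x + j)
    (z := x + j) (Or.inl ⟨rfl, rfl⟩) (by omega) (by omega)
  have c4 : Col c v (x + j) (x + j - t + 1 + m) (β (x + j)) :=
    (N.colH (x + j)).symm.shift1 N.F (by omega) (by omega) (by omega)
  have c5 : Col c v (x + s + n - 1) (x + s) (β (x + s)) := (N.colC (x + s)).symm
  obtain ⟨q3, r3, r3'⟩ := tri N.F P3 N.no (by omega) (x + j - t + 1 + m) (x + s + n - 1)
    (x + s + n - 1) (x + j - t + 1 + m) (β (x + j)) (x + s) (x + s) (x + s) (x + s)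
    (β (x + s)) x x c4 c5
    (by omega) (by omega) (by omega) (by omega) (by omega) (by omega) (by omega) (by omega)
    (by omega)
  have u1 := r1.uniq_window N.F r2 (B := x) (by omega) (by omega) (by omega) (by omega)
  have u2 := r1.uniq_window N.F r3 (B := x) (by omega) (by omega) (by omega) (by omega)
  have key : q1 = β x ∨ q1 = β (x + s) := by omega
  rcases key with hk | hk
  · left; rw [← hk]; exact r1.symm
  · right; rw [← hk]; exact r1.symm

end Pool.Agent.helper64.RF
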