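import Mathlib
import Pool.Agent.helper64.RF.Chain

set_option autoImplicit false

/-!
# There is no near structure, for `n = 2 mod 4`
-/

namespace Pool.Agent.helper64.RF

open Pool.Agent.helper94.Rainbow Pool.Agent.helper94.RainbowTwice Pool.Agent.helper94.RB

variable {V C : Type} {c : Sym2 V → C} {n t m : ℕ} {v : ℤ → V} {β : ℤ → ℤ}

/-- a largest block -/
theorem Near.exists_max (N : Near c n t m v β) {B : ℤ} (hB : ∀ x, β x - x ≤ B) :
    ∃ S e : ℤ, 1 ≤ S ∧ (∀ x, β x ≤ x + S - 1) ∧ β e = e ∧ β (e - S + 1) = e := by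
  obtain ⟨M, ⟨x, hx⟩, hM⟩ := Int.exists_greatest_of_bdd (P := fun z => ∃ x, β x - x = z)
    ⟨B, by rintro z ⟨x, rfl⟩; exact hB x⟩ ⟨β 0 - 0, 0, rfl⟩
  have h0 := N.le x
  refine ⟨M + 1, β x, by omega, ?_, N.idem x, ?_⟩
  · intro y
    have := hM _ ⟨y, rfl⟩
    omega
  · rw [show β x - (M + 1) + 1 = x by omega]

/-- the descending chain of chords of length `3` -/
theorem chain3 (N : Near c n t m v β) (h1 : ∀ x, β x = x) {x0 : ℤ}
    (hb : ∀ y, x0 + 3 ≤ y → y + 3 ≤ x0 + m → Col c v y (y + 3) (y + 3)) (i : ℕ)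
    (hi : 3 * (i : ℤ) + 3 ≤ m) : Down c v β (x0 + m) (x0 + m - 3 * i) (1 + i) := by
  induction i with
  | zero =>
    have := Down.single (c := c) (v := v) (β := β) (x0 + m)
    simpa using this
  | succ i ih =>
    have ih' := ih (by push_cast at hi; omega)
    push_cast at hi
    have e1 : x0 + (m : ℤ) - 3 * ((i + 1 : ℕ) : ℤ) = x0 + m - 3 * i - 3 := by push_cast; ring
    have e2 : 1 + ((i + 1 : ℕ) : ℤ) = 1 + i + 1 := by push_cast; ring
    rw [e1, e2]
    refine ih'.step N (by omega) (by rw [h1]; omega) ?_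
    have := hb (x0 + m - 3 * i - 3) (by omega) (by omega)
    rw [show x0 + (m : ℤ) - 3 * i - 3 + 3 = x0 + m - 3 * i by ring] at this
    rw [h1]
    exact this

/-- the singleton case -/
theorem Near.false1 (N : Near c n t m v β) (h1 : ∀ x, β x = x) : False := by
  have hm := N.hm
  have ht := N.ht
  have htn := N.htn
  have hn := N.hn
  have hte := N.hte
  have hD : ∀ x, Col c v x (x + 3) x ∨ Col c v x (x + 3) (x + 3) := by
    intro x
    have := N.labD (j := 1) le_rfl (by omega) (by omega) (fun y => by rw [h1]; omega) x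
      (by rw [h1]; omega)
    rw [h1, h1, show x + (2 * 1 + 1) = x + 3 by ring] at this
    exact this
  obtain ⟨x0, hx0⟩ : ∃ x0 : ℤ, ∀ y, x0 + 3 ≤ y → y + 3 ≤ x0 + m →
      Col c v y (y + 3) (y + 3) := by
    by_cases hex : ∃ x0, Col c v x0 (x0 + 3) x0
    · obtain ⟨x0, hx0⟩ := hex
      refine ⟨x0, fun y h2 h3 => (hD y).resolve_left fun hy => ?_⟩
      refine N.long2 h2 h3 (by rw [h1]; omega) (by rw [h1]; omega) ?_ ?_
      · rw [h1]; exact hx0
      · rw [h1]; exact hy
    · push Not at hex
      exact ⟨0, fun y _ _ => (hD y).resolve_left (hex y)⟩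
  obtain ⟨r, hr⟩ : ∃ r : ℕ, n = t + 4 * r := ⟨(n - t) / 4, by omega⟩
  have h := chain3 N h1 hx0 r (by omega)
  exact h.false N (fun x => by rw [h1]; omega) (by omega) (by omega) (by omega)

theorem Near.false (N : Near c n t m v β) (hb : ∀ x, 2 * (β x - x) + 2 + t ≤ n) : False := by
  have hm := N.hm
  have ht := N.ht
  have htn := N.htn
  have hn := N.hn
  have hte := N.hte
  -- all blocks have size at most `t - 1`
  have hS : ∀ x, β x ≤ x + t - 2 := by
    intro x
    have f1 := Nat.div_add_mod (n - t) (2 * t)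
    have f2 := Nat.mod_lt (n - t) (show 0 < 2 * t by omega)
    obtain ⟨l', hl'⟩ : ∃ q, q = (n - t) / (2 * t) := ⟨_, rfl⟩
    rw [← hl'] at f1
    have f3 : 2 * l' * t = 2 * t * l' := by ring
    have hsize := aa N hb l' (by omega) x
    have f3' : 2 * (l' : ℤ) * t = ((2 * t * l' : ℕ) : ℤ) := by push_cast; ring
    omega
  -- `n = (l + 1) t + 2 J`
  obtain ⟨l, J, hJ, hJ1, hJt⟩ : ∃ l J : ℕ, n = (l + 1) * t + 2 * J ∧ 1 ≤ J ∧ 2 * J ≤ t := by
    have e1 := Nat.div_add_mod (n - 2) t
    have e2 := Nat.mod_lt (n - 2) (show 0 < t by omega)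
    obtain ⟨K, hK⟩ : ∃ q, q = (n - 2) / t := ⟨_, rfl⟩
    obtain ⟨r, hr⟩ : ∃ r, r = (n - 2) % t := ⟨_, rfl⟩
    rw [← hK, ← hr] at e1
    rw [← hr] at e2
    obtain ⟨u, hu⟩ : ∃ u, t = 2 * u := ⟨t / 2, by omega⟩
    have etK : t * K = 2 * (K * u) := by rw [hu]; ring
    have hK1 : 1 ≤ K := by
      rcases Nat.eq_zero_or_pos K with h3 | h3
      · rw [h3] at e1; omega
      · exact h3
    refine ⟨K - 1, (r + 2) / 2, ?_, by omega, by omega⟩
    rw [Nat.sub_add_cancel hK1, mul_comm]
    omega
  have hsz := N.size hS l J hJ hJ1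
  obtain ⟨P, hP⟩ : ∃ P : ℤ, P = l * t := ⟨_, rfl⟩
  have hlt : (l : ℤ) * (t - 1) = P - l := by rw [hP]; ring
  have hnP : (n : ℤ) = P + t + 2 * J := by rw [hJ, hP]; push_cast; ring
  have hPl : 3 * (l : ℤ) ≤ P := by
    rw [hP]
    have : (l : ℤ) * 3 ≤ l * t := by
      apply mul_le_mul_of_nonneg_left <;> omega
    omega
  rcases Nat.lt_or_ge J 2 with hJ2 | hJ2
  · -- singletons
    refine N.false1 fun x => ?_
    have := hsz x
    have := N.le x
    omega
  -- all chords of length `2 J - 1` are owned by the lower end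
  have hfw : ∀ x, Col c v x (x + (2 * J - 1)) (β x) := by
    intro x
    have h1 := N.labD (j := J - 1) (by omega) (by omega) (by omega) (fun y => by
      have := hsz y; omega) x (by have := hsz (x + (J - 1)); omega)
    rw [show 2 * ((J : ℤ) - 1) + 1 = 2 * J - 1 by ring] at h1
    refine h1.resolve_right fun h2 => ?_
    have h3 := (Down.single (c := c) (v := v) (β := β) (x + (2 * J - 1) + l * (t - 1))).H N hS
      le_rfl l
    rw [show x + (2 * (J : ℤ) - 1) + l * (t - 1) - l * (t - 1) = x + (2 * J - 1) by ring] at h3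
    have h4 := hsz x
    have h5 := h3.step N (by rw [hlt]; omega) (q' := x) (by omega) h2
    exact h5.false N hS (by rw [hlt]; omega) (by omega) (by rw [hlt]; omega)
  rcases Nat.mod_two_eq_zero_or_one J with hJ3 | hJ3
  · rcases Nat.lt_or_ge J 4 with hJ4 | hJ4
    · -- `J = 2`
      have hJ5 : J = 2 := by omega
      subst hJ5
      have h1 := hfw 0
      have h2 := hfw 3
      have h3 := hsz 0
      have h4 := hsz 3
      have h1' : Col c v 0 (0 + 3) (β 0) := by
        have e : (0 : ℤ) + (2 * ((2 : ℕ) : ℤ) - 1) = 0 + 3 := by norm_num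
        rw [e] at h1
        exact h1
      have h2' : Col c v 3 (3 + 3) (β 3) := by
        have e : (3 : ℤ) + (2 * ((2 : ℕ) : ℤ) - 1) = 3 + 3 := by norm_num
        rw [e] at h2
        exact h2
      exact N.long2 (x := 0) (y := 3) (by omega) (by omega) (by omega) (by omega) h1' h2'
    · -- `J ≥ 4` even: the blocks are singletons
      obtain ⟨S, e, hS1, hSS, he, hB⟩ := N.exists_max (B := n) (fun x => by
        have := hb x; omega)
      have hSJ : S ≤ J := by
        have := hsz (e - S + 1)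
        rw [hB] at this
        omega
      rcases lt_or_ge S 2 with hS2 | hS2
      · refine N.false1 fun x => ?_
        have := hSS x
        have := N.le x
        omega
      exfalso
      obtain ⟨w, hw⟩ : ∃ w, w = e - S + 1 := ⟨_, rfl⟩
      rw [← hw] at hB
      have hw1 : β (w + 1) = e := by
        rw [N.blk w (w + 1) (by omega) (by omega), hB]
      have h3 : β (w + 1 + (J - 2)) < w + 1 + 2 * (J - 2) + 1 := by
        rcases lt_or_ge S J with h | h
        · have := hSS (w + 1 + (J - 2))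
          omega
        · rw [N.blk w (w + 1 + (J - 2)) (by omega) (by omega), hB]
          omega
      have h4 := hsz (w + 1)
      rcases N.labD (j := J - 2) (by omega) (by omega) (by omega) (fun y => by
        have := hsz y; omega) (w + 1) h3 with h | h
      · exact N.long1 (d := 2 * ((J : ℤ) - 2) + 1) (by omega) (by omega) (by omega)
          (by omega) h
      · have U := Up.arc N w 1 (by omega) (by omega)
        have U2 := U.step N (by omega) (by omega) h
        have U3 := U2.H N hS (by omega) l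
        rw [hlt] at U3
        exact U3.false N hS (by omega) (by omega) (by omega)
  · -- `J` odd
    have h1 := hsz 0
    exact N.long1 (x := 0) (d := 2 * J - 1) (by omega) (by omega) (by omega) (by omega) (hfw 0)

end Pool.Agent.helper64.RF
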