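import Mathlib
import Pool.Agent.helper64.RF.Dich
import Pool.Agent.helper64.RF.NearFalse

set_option autoImplicit false

/-!
# Every length `m = 2 mod 4`, `m ≥ 2n - 2`, implies `n`, for `n = 2 mod 4`

The proof follows the pattern of the proofs for odd `n` (`Pool.Agent.helper94.RB`) and for
`4 ∣ n` (`Pool.Agent.helper64.RE`). New are the near dichotomy (`near_dich`) and the argument
excluding the near structure (`Near.false`), since only the lengths `L = 2 mod 4` are available.
-/

namespace Pool.Agent.helper64.RF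

open Pool.Agent.helper94.Rainbow Pool.Agent.helper94.RainbowTwice Pool.Agent.helper94.RB

variable {V C : Type} {c : Sym2 V → C} {n t m : ℕ} {v : ℤ → V} {β : ℤ → ℤ}

theorem Base.false (N : Base c n t m v) : False := by
  obtain ⟨v', β, N', hb⟩ := near_dich N
  exact N'.false hb

/-- Every length `m = 2 mod 4`, `m ≥ 2n - 2`, implies `n`, for `n = 2 mod 4`, `n ≥ 6`. -/
theorem implies_two_mod_four (n : ℕ) (hn : n % 4 = 2) (h4 : 6 ≤ n) (m : ℕ)
    (hm : 2 * n - 2 ≤ m) (hme : m % 4 = 2) : Implies m n := by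
  intro V C _ c hrc
  by_contra hno
  classical
  have hex : ∃ L, (2 * n - 2 ≤ L ∧ L % 4 = 2) ∧ HasRainbowCycle c L := ⟨m, ⟨hm, hme⟩, hrc⟩
  obtain ⟨⟨h1, h1'⟩, h2⟩ := Nat.find_spec hex
  have hmin : ∀ L, 2 * n - 2 ≤ L → L % 4 = 2 → L < Nat.find hex → ¬ HasRainbowCycle c L := by
    intro L hL hL1 hL2 hL3
    exact Nat.find_min hex hL2 ⟨⟨hL, hL1⟩, hL3⟩
  generalize Nat.find hex = m0 at h1 h1' h2 hmin
  obtain ⟨v, F⟩ := h2.exists_frame
  obtain ⟨t, ht⟩ : ∃ t, m0 + 4 = 2 * n + t := ⟨m0 + 4 - 2 * n, by omega⟩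
  have hclo := fun b (hb : 3 ≤ b) (hnb : ¬ HasRainbowCycle c b) =>
    closure (c := c) (a := n) (b := b) (by omega) hb hno hnb
  rcases Nat.lt_or_ge t 3 with h3 | h3
  · have : m0 = 2 * n - 2 := by omega
    subst this
    exact hclo n (by omega) hno (by rw [show n + n - 2 = 2 * n - 2 by omega]; exact h2)
  · have h5 : t + 2 ≤ n := by
      by_contra hcon
      refine hclo (m0 - (n - 2)) (by omega) (hmin _ (by omega) (by omega) (by omega)) ?_
      rw [show n + (m0 - (n - 2)) - 2 = m0 by omega]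
      exact h2
    have N : Base c n t m0 v :=
      ⟨F, ht, h3, h5, hn, by omega, hno, fun L hL0 hL1 hL2 => hmin L (by omega) hL0 hL2⟩
    exact N.false

end Pool.Agent.helper64.RF
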